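import Mathlib

set_option autoImplicit false

/-!
# A non-classical symmetric net with a group transitive on joined and on non-joined pairs

The symmetric `(3, 2)`-net given by the generalized Hadamard matrix of order 6 over the group of
order 3 (18 points, 18 blocks). The automorphisms that commute with the group of order 3 already
form a group that is transitive on the ordered pairs of joined points and, up to order, on the pairs
of distinct non-joined points. As `18` is not a prime power, the net is not classical.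
-/

namespace Pool.Agent.Results.MP_36fbc5_co.NonClassicalNet

/-- `(s, r, μ)`-nets: `I p b` says that the point `p` lies on the block `b`. Blocks are determined
by their points; there are `s² μ` points and each block has `s μ` points; the blocks are
distributed over `r` parallel classes, each of which partitions the point set, and blocks of
different parallel classes meet in exactly `μ` points. -/
structure IsNet {P B : Type} (I : P → B → Prop) (s r μ : ℕ) : Prop where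
  card_points : Nat.card P = s ^ 2 * μ
  block_ext : ∀ b b' : B, (∀ p, I p b ↔ I p b') → b = b'
  block_card : ∀ b : B, {p | I p b}.ncard = s * μ
  classes : ∃ c : B → Fin r, (∀ i : Fin r, ∀ p : P, ∃! b : B, c b = i ∧ I p b) ∧
    ∀ b b' : B, c b ≠ c b' → {p | I p b ∧ I p b'}.ncard = μ

/-- Symmetric `(s, μ)`-nets: `(s, s μ, μ)`-nets whose dual is an `(s, s μ, μ)`-net. -/
def IsSymmetricNet {P B : Type} (I : P → B → Prop) (s μ : ℕ) : Prop :=
  IsNet I s (s * μ) μ ∧ IsNet (fun b p => I p b) s (s * μ) μ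

/-- Two distinct points are joined if some block contains both. -/
def Joined {P B : Type} (I : P → B → Prop) (p q : P) : Prop := p ≠ q ∧ ∃ b, I p b ∧ I q b

/-- Automorphisms: permutations of the points that map blocks to blocks. -/
def IsAut {P B : Type} (I : P → B → Prop) (σ : Equiv.Perm P) : Prop :=
  ∀ b : B, ∃ b' : B, σ '' {p | I p b} = {p | I p b'}

/-- The group `G` is transitive on the unordered pairs `{p, q}` of distinct points with `R p q`. -/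
def TransOnPairs {P : Type} (G : Subgroup (Equiv.Perm P)) (R : P → P → Prop) : Prop :=
  ∀ p q p' q' : P, p ≠ q → R p q → p' ≠ q' → R p' q' →
    ∃ σ ∈ G, ({σ p, σ q} : Set P) = {p', q'}

/-- Classical nets: up to an identification `e` of the points with the points of the affine space
`AG(d, q)`, `d ≥ 2`, over a finite field `F` with `q` elements, the blocks are exactly the
hyperplanes that are not parallel to a fixed line (with direction vector `u ≠ 0`). -/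
def IsClassical {P B : Type} (I : P → B → Prop) : Prop :=
  ∃ (F : Type) (_ : Field F) (_ : Finite F) (d : ℕ) (u : Fin d → F) (e : P ≃ (Fin d → F)),
    2 ≤ d ∧ u ≠ 0 ∧ ∀ S : Set P, (∃ b : B, S = {p | I p b}) ↔
      ∃ H : AffineSubspace F (Fin d → F), (H : Set (Fin d → F)).Nonempty ∧
        Module.finrank F H.direction + 1 = d ∧ u ∉ H.direction ∧ e '' S = H

/-! ### the net -/

/-- the generalized Hadamard matrix -/
def M (i j : Fin 6) : ZMod 3 :=
  ![![0, 0, 0, 0, 0, 0], ![0, 0, 1, 1, 2, 2], ![0, 1, 0, 2, 2, 1], ![0, 1, 2, 0, 1, 2],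
    ![0, 2, 2, 1, 0, 1], ![0, 2, 1, 2, 1, 0]] i j

/-- incidence -/
def Inc (p b : Fin 6 × ZMod 3) : Prop := p.2 + M p.1 b.1 = b.2

instance : DecidableRel Inc := fun p b => inferInstanceAs (Decidable (p.2 + M p.1 b.1 = b.2))

lemma inc_symm : ∀ i j : Fin 6, M i j = M j i := by decide

lemma net_aux (J : Fin 6 × ZMod 3 → Fin 6 × ZMod 3 → Prop) [DecidableRel J]
    (h1 : ∀ b b', (∀ p, J p b ↔ J p b') → b = b')
    (h2 : ∀ b, (Finset.univ.filter (fun p => J p b)).card = 6)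
    (h3 : ∀ i : Fin 6, ∀ p, ∃ b, (b.1 = i ∧ J p b) ∧ ∀ b', b'.1 = i ∧ J p b' → b' = b)
    (h4 : ∀ b b' : Fin 6 × ZMod 3, b.1 ≠ b'.1 →
      (Finset.univ.filter (fun p => J p b ∧ J p b')).card = 2) : IsNet J 3 6 2 := by
  refine ⟨?_, h1, ?_, fun b => b.1, ?_, ?_⟩
  · rw [Nat.card_eq_fintype_card, Fintype.card_prod, Fintype.card_fin, ZMod.card]; norm_num
  · intro b
    have e := h2 b
    rw [← Set.ncard_coe_finset] at e
    refine Eq.trans ?_ e
    congr 1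
    ext p
    simp
  · intro i p
    obtain ⟨b, hb, hb'⟩ := h3 i p
    exact ⟨b, hb, hb'⟩
  · intro b b' hbb
    have e := h4 b b' hbb
    rw [← Set.ncard_coe_finset] at e
    refine Eq.trans ?_ e
    congr 1
    ext p
    simp

set_option maxRecDepth 100000 in
lemma isNet : IsNet Inc 3 6 2 := by
  apply net_aux
  · decide
  · decide
  · decide
  · decide

set_option maxRecDepth 100000 in
lemma isNet_dual : IsNet (fun b p => Inc p b) 3 6 2 := by
  apply net_aux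
  · decide
  · decide
  · decide
  · decide

/-! ### automorphisms -/

/-- monomial maps -/
def mono (π : Fin 6 → Fin 6) (a : Fin 6 → ZMod 3) (p : Fin 6 × ZMod 3) : Fin 6 × ZMod 3 :=
  (π p.1, p.2 + a p.1)

/-- `(π, a, ρ, c)` is good -/
def Good (π : Fin 6 → Fin 6) (a : Fin 6 → ZMod 3) (ρ : Fin 6 → Fin 6) (c : Fin 6 → ZMod 3) : Prop :=
  ∀ i j, a i + M (π i) (ρ j) = M i j + c j

instance (π : Fin 6 → Fin 6) (a : Fin 6 → ZMod 3) (ρ : Fin 6 → Fin 6) (c : Fin 6 → ZMod 3) :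
    Decidable (Good π a ρ c) :=
  inferInstanceAs (Decidable (∀ i j, a i + M (π i) (ρ j) = M i j + c j))

lemma exists_aut {π : Fin 6 → Fin 6} {a : Fin 6 → ZMod 3} {ρ : Fin 6 → Fin 6} {c : Fin 6 → ZMod 3}
    (hπ : Function.Injective π) (h : Good π a ρ c) (z : ZMod 3) :
    ∃ σ : Equiv.Perm (Fin 6 × ZMod 3), IsAut Inc σ ∧ ∀ p, σ p = mono π (fun i => a i + z) p := by
  have hinj : Function.Injective (mono π (fun i => a i + z)) := by
    rintro ⟨i, x⟩ ⟨j, y⟩ hxy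
    simp only [mono, Prod.mk.injEq] at hxy
    obtain ⟨h1, h2⟩ := hxy
    have h3 := hπ h1
    subst h3
    exact Prod.ext rfl (add_right_cancel h2)
  refine ⟨Equiv.ofBijective _ (Finite.injective_iff_bijective.1 hinj), ?_, fun p => rfl⟩
  intro b
  refine ⟨(ρ b.1, b.2 + c b.1 + z), ?_⟩
  ext p
  have key : ∀ q : Fin 6 × ZMod 3, Inc q b ↔
      Inc (mono π (fun i => a i + z) q) (ρ b.1, b.2 + c b.1 + z) := by
    intro q
    have h1 := h q.1 b.1
    unfold Inc mono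
    simp only
    constructor
    · intro h2; rw [← h2]; linear_combination h1
    · intro h2; linear_combination h2 - h1
  simp only [Set.mem_image, Set.mem_ofPred_eq]
  constructor
  · rintro ⟨q, hq, rfl⟩
    exact (key q).1 hq
  · intro hp
    obtain ⟨q, rfl⟩ := (Finite.injective_iff_bijective.1 hinj).2 p
    exact ⟨q, (key q).2 hp, rfl⟩

/-- the full automorphism group -/
def G : Subgroup (Equiv.Perm (Fin 6 × ZMod 3)) where
  carrier := {σ | IsAut Inc σ ∧ IsAut Inc σ⁻¹}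
  mul_mem' := by
    have key : ∀ σ τ : Equiv.Perm (Fin 6 × ZMod 3), IsAut Inc σ → IsAut Inc τ →
        IsAut Inc (σ * τ) := by
      intro σ τ h1 h2 b
      obtain ⟨b', hb'⟩ := h2 b
      obtain ⟨b'', hb''⟩ := h1 b'
      refine ⟨b'', ?_⟩
      rw [← hb'', ← hb', ← Set.image_comp]
      rfl
    rintro σ τ ⟨h1, h2⟩ ⟨h3, h4⟩
    refine ⟨key _ _ h1 h3, ?_⟩
    rw [mul_inv_rev]
    exact key _ _ h4 h2
  one_mem' := by
    have : IsAut Inc (1 : Equiv.Perm (Fin 6 × ZMod 3)) := by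
      intro b; exact ⟨b, by simp⟩
    exact ⟨this, by rw [inv_one]; exact this⟩
  inv_mem' := by
    rintro σ ⟨h1, h2⟩
    exact ⟨h2, by rw [inv_inv]; exact h1⟩

lemma mem_G {σ : Equiv.Perm (Fin 6 × ZMod 3)} (h : IsAut Inc σ) : σ ∈ G := by
  refine ⟨h, ?_⟩
  -- the block map is injective, hence surjective
  choose f hf using h
  have hinj : Function.Injective f := by
    intro b b' hbb
    have h1 : σ '' {p | Inc p b} = σ '' {p | Inc p b'} := by rw [hf, hf, hbb]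
    have h2 := Set.image_injective.2 σ.injective h1
    apply isNet.block_ext
    intro p
    exact Set.ext_iff.1 h2 p
  intro b
  obtain ⟨b', rfl⟩ := (Finite.injective_iff_bijective.1 hinj).2 b
  refine ⟨b', ?_⟩
  rw [← hf b', ← Set.image_comp]
  simp

/-- permutations of the rows, mapping row `0` to row `i` -/
def tπ : Fin 6 → Fin 6 → Fin 6 := ![![0, 1, 2, 3, 4, 5], ![1, 0, 2, 3, 5, 4], ![2, 0, 1, 5, 3, 4],
  ![3, 0, 1, 4, 2, 5], ![4, 0, 1, 2, 3, 5], ![5, 0, 1, 3, 2, 4]]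
def ta : Fin 6 → Fin 6 → ZMod 3 := ![![0, 0, 0, 0, 0, 0], ![0, 0, 0, 0, 0, 0], ![0, 0, 0, 0, 0, 0],
  ![0, 0, 0, 0, 0, 0], ![0, 0, 1, 1, 2, 2], ![0, 0, 1, 1, 2, 2]]
def tρ : Fin 6 → Fin 6 → Fin 6 := ![![0, 1, 2, 3, 4, 5], ![0, 1, 4, 5, 2, 3], ![0, 2, 4, 3, 1, 5],
  ![0, 3, 5, 2, 1, 4], ![4, 0, 2, 1, 5, 3], ![5, 0, 3, 1, 4, 2]]
def tc : Fin 6 → Fin 6 → ZMod 3 := ![![0, 0, 0, 0, 0, 0], ![0, 0, 2, 2, 1, 1], ![0, 0, 2, 2, 1, 1],
  ![0, 0, 2, 2, 1, 1], ![0, 0, 2, 2, 1, 1], ![0, 0, 2, 2, 1, 1]]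

/-- permutations of the rows fixing row `0`, mapping row `1` to row `i + 1` with shift `x` -/
def uπ (i : Fin 5) (x : ZMod 3) : Fin 6 → Fin 6 :=
  (![![![0, 1, 2, 3, 4, 5], ![0, 1, 2, 5, 3, 4], ![0, 1, 2, 4, 5, 3]],
    ![![0, 2, 1, 5, 4, 3], ![0, 2, 1, 3, 5, 4], ![0, 2, 1, 4, 3, 5]],
    ![![0, 3, 1, 4, 5, 2], ![0, 3, 1, 2, 4, 5], ![0, 3, 1, 5, 2, 4]],
    ![![0, 4, 1, 2, 5, 3], ![0, 4, 1, 3, 2, 5], ![0, 4, 1, 5, 3, 2]],
    ![![0, 5, 1, 3, 4, 2], ![0, 5, 1, 2, 3, 4], ![0, 5, 1, 4, 2, 3]]] :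
    Fin 5 → Fin 3 → Fin 6 → Fin 6) i x
def ua (i : Fin 5) (x : ZMod 3) : Fin 6 → ZMod 3 :=
  (![![![0, 0, 0, 0, 0, 0], ![0, 1, 2, 0, 1, 2], ![0, 2, 1, 2, 1, 0]],
    ![![0, 0, 0, 0, 0, 0], ![0, 1, 2, 0, 1, 2], ![0, 2, 1, 2, 1, 0]],
    ![![0, 0, 0, 0, 0, 0], ![0, 1, 2, 0, 1, 2], ![0, 2, 1, 2, 1, 0]],
    ![![0, 0, 1, 1, 2, 2], ![0, 1, 0, 2, 2, 1], ![0, 2, 2, 1, 0, 1]],
    ![![0, 0, 1, 1, 2, 2], ![0, 1, 0, 2, 2, 1], ![0, 2, 2, 1, 0, 1]]] :
    Fin 5 → Fin 3 → Fin 6 → ZMod 3) i x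
def uρ (i : Fin 5) (x : ZMod 3) : Fin 6 → Fin 6 :=
  (![![![0, 1, 2, 3, 4, 5], ![5, 4, 1, 0, 2, 3], ![3, 2, 4, 5, 1, 0]],
    ![![0, 2, 1, 5, 4, 3], ![3, 4, 2, 0, 1, 5], ![5, 1, 4, 3, 2, 0]],
    ![![0, 3, 1, 4, 5, 2], ![2, 5, 3, 0, 1, 4], ![4, 1, 5, 2, 3, 0]],
    ![![4, 0, 5, 3, 2, 1], ![1, 2, 0, 4, 5, 3], ![3, 5, 2, 1, 0, 4]],
    ![![5, 0, 4, 2, 3, 1], ![1, 3, 0, 5, 4, 2], ![2, 4, 3, 1, 0, 5]]] :
    Fin 5 → Fin 3 → Fin 6 → Fin 6) i x

set_option maxRecDepth 100000 in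
lemma t_inj : ∀ i, Function.Injective (tπ i) := by decide

set_option maxRecDepth 100000 in
lemma t_good : ∀ i, Good (tπ i) (ta i) (tρ i) (tc i) := by decide

lemma t_zero : ∀ i, tπ i 0 = i ∧ ta i 0 = 0 := by decide

set_option maxRecDepth 100000 in
lemma u_inj : ∀ i x, Function.Injective (uπ i x) := by decide

set_option maxRecDepth 100000 in
lemma u_good : ∀ i x, Good (uπ i x) (ua i x) (uρ i x) (fun _ => 0) := by decide

lemma u_zero : ∀ i x, uπ i x 0 = 0 ∧ ua i x 0 = 0 := by decide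

lemma u_one : ∀ i x, uπ i x 1 = i.succ ∧ ua i x 1 = x := by decide

/-- point transitivity -/
lemma exists_point (p : Fin 6 × ZMod 3) : ∃ σ ∈ G, σ (0, 0) = p := by
  obtain ⟨i, z⟩ := p
  obtain ⟨σ, h1, h2⟩ := exists_aut (t_inj i) (t_good i) z
  refine ⟨σ, mem_G h1, ?_⟩
  rw [h2]
  simp [mono, (t_zero i).1, (t_zero i).2]

/-- the stabilizer of a point is transitive on the joined points -/
lemma exists_stab (q : Fin 6 × ZMod 3) (hq : q.1 ≠ 0) : ∃ σ ∈ G, σ (0, 0) = (0, 0) ∧ σ (1, 0) = q := by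
  obtain ⟨i, z⟩ := q
  obtain ⟨k, rfl⟩ := Fin.exists_succ_eq.2 hq
  obtain ⟨σ, h1, h2⟩ := exists_aut (u_inj k z) (u_good k z) 0
  refine ⟨σ, mem_G h1, ?_, ?_⟩
  · rw [h2]; simp [mono, (u_zero k z).1, (u_zero k z).2]
  · rw [h2]
    have h3 := u_one k z
    simp only [mono, h3.1, h3.2]
    simp

/-- fibres are preserved -/
lemma joined_iff : ∀ p q : Fin 6 × ZMod 3, (∃ b, Inc p b ∧ Inc q b) ↔ (p.1 ≠ q.1 ∨ p = q) := by
  decide

lemma aut_fst {σ : Equiv.Perm (Fin 6 × ZMod 3)} (h : σ ∈ G) {p q : Fin 6 × ZMod 3}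
    (hpq : p.1 ≠ q.1) : (σ p).1 ≠ (σ q).1 := by
  obtain ⟨b, hb1, hb2⟩ := (joined_iff p q).2 (Or.inl hpq)
  obtain ⟨b', hb'⟩ := h.1 b
  have e1 : σ p ∈ σ '' {p | Inc p b} := ⟨p, hb1, rfl⟩
  have e2 : σ q ∈ σ '' {p | Inc p b} := ⟨q, hb2, rfl⟩
  rw [hb'] at e1 e2
  rcases (joined_iff (σ p) (σ q)).1 ⟨b', e1, e2⟩ with h1 | h1
  · exact h1
  · exact absurd (congrArg Prod.fst (σ.injective h1)) hpq

/-- transitivity on ordered pairs of joined points -/
lemma exists_pair (p q : Fin 6 × ZMod 3) (hpq : p.1 ≠ q.1) :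
    ∃ σ ∈ G, σ (0, 0) = p ∧ σ (1, 0) = q := by
  obtain ⟨σ, hσ, rfl⟩ := exists_point p
  have h1 : (σ⁻¹ q).1 ≠ 0 := by
    have := aut_fst (G.inv_mem hσ) hpq
    simp only [Equiv.Perm.inv_def, Equiv.symm_apply_apply] at this ⊢
    exact this.symm
  obtain ⟨τ, hτ, h2, h3⟩ := exists_stab _ h1
  refine ⟨σ * τ, G.mul_mem hσ hτ, ?_, ?_⟩
  · rw [Equiv.Perm.mul_apply, h2]
  · rw [Equiv.Perm.mul_apply, h3]; simp [Equiv.Perm.inv_def]

lemma trans_joined : TransOnPairs G (Joined Inc) := by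
  intro p q p' q' _ h1 _ h2
  have e1 : p.1 ≠ q.1 := ((joined_iff p q).1 h1.2).resolve_right h1.1
  have e2 : p'.1 ≠ q'.1 := ((joined_iff p' q').1 h2.2).resolve_right h2.1
  obtain ⟨σ, hσ, rfl, rfl⟩ := exists_pair p q e1
  obtain ⟨τ, hτ, rfl, rfl⟩ := exists_pair p' q' e2
  refine ⟨τ * σ⁻¹, G.mul_mem hτ (G.inv_mem hσ), ?_⟩
  simp [Equiv.Perm.mul_apply, Equiv.Perm.inv_def]

lemma three : ∀ y y' : ZMod 3, y ≠ 0 → y' ≠ 0 → y = y' ∨ y + y' = 0 := by decide

lemma trans_nonjoined : TransOnPairs G (fun p q => ¬ Joined Inc p q) := by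
  -- pairs `{(0, 0), (0, y)}` first
  have key : ∀ p q : Fin 6 × ZMod 3, p ≠ q → p.1 = q.1 →
      ∃ σ ∈ G, σ (0, 0) = p ∧ ∃ y : ZMod 3, y ≠ 0 ∧ σ (0, y) = q := by
    rintro ⟨i, z⟩ ⟨j, w⟩ hpq hij
    simp only at hij
    subst hij
    obtain ⟨σ, h1, h2⟩ := exists_aut (t_inj i) (t_good i) z
    refine ⟨σ, mem_G h1, ?_, w - z, ?_, ?_⟩
    · rw [h2]; simp [mono, (t_zero i).1, (t_zero i).2]
    · intro h0
      apply hpq
      rw [sub_eq_zero.1 h0]
    · rw [h2]; simp [mono, (t_zero i).1, (t_zero i).2]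
  intro p q p' q' hpq h1 hpq' h2
  have e1 : p.1 = q.1 := by
    by_contra hne
    exact h1 ⟨hpq, (joined_iff p q).2 (Or.inl hne)⟩
  have e2 : p'.1 = q'.1 := by
    by_contra hne
    exact h2 ⟨hpq', (joined_iff p' q').2 (Or.inl hne)⟩
  obtain ⟨σ, hσ, rfl, y, hy, rfl⟩ := key p q hpq e1
  obtain ⟨τ, hτ, rfl, y', hy', rfl⟩ := key p' q' hpq' e2
  rcases three y y' hy hy' with rfl | h3
  · refine ⟨τ * σ⁻¹, G.mul_mem hτ (G.inv_mem hσ), ?_⟩
    simp [Equiv.Perm.mul_apply, Equiv.Perm.inv_def]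
  · -- use the shift by `y'`
    obtain ⟨ζ, h4, h5⟩ := exists_aut (t_inj 0) (t_good 0) y'
    have e0 : ∀ x : ZMod 3, ζ (0, x) = (0, x + y') := by
      intro x
      rw [h5]; simp [mono, (t_zero 0).1, (t_zero 0).2]
    refine ⟨τ * ζ * σ⁻¹, G.mul_mem (G.mul_mem hτ (mem_G h4)) (G.inv_mem hσ), ?_⟩
    simp only [Equiv.Perm.mul_apply, Equiv.Perm.inv_def, Equiv.symm_apply_apply, e0, h3, zero_add]
    exact Set.pair_comm _ _

lemma not_classical : ¬ IsClassical Inc := by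
  rintro ⟨F, _, _, d, u, e, -, -, -⟩
  have : Fintype F := Fintype.ofFinite F
  have h1 : Fintype.card (Fin 6 × ZMod 3) = Fintype.card F ^ d := by
    rw [Fintype.card_congr e, Fintype.card_fun, Fintype.card_fin]
  rw [Fintype.card_prod, Fintype.card_fin, ZMod.card] at h1
  obtain ⟨p, _, n, hp, hF⟩ := FiniteField.card' F
  rw [hF] at h1
  have h2 : 2 = p := by
    have : 2 ∣ p := Nat.prime_two.dvd_of_dvd_pow
      (Nat.prime_two.dvd_of_dvd_pow (h1 ▸ (by norm_num : 2 ∣ 6 * 3)))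
    exact (Nat.prime_dvd_prime_iff_eq Nat.prime_two hp).1 this
  have h3 : 3 = p := by
    have : 3 ∣ p := Nat.prime_three.dvd_of_dvd_pow
      (Nat.prime_three.dvd_of_dvd_pow (h1 ▸ (by norm_num : 3 ∣ 6 * 3)))
    exact (Nat.prime_dvd_prime_iff_eq Nat.prime_three hp).1 this
  omega

/-- There is a symmetric `(3, 2)`-net with an automorphism group that is transitive on the pairs of
joined points and on the pairs of distinct non-joined points, and which is not classical. -/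
theorem result : ∃ (P B : Type) (I : P → B → Prop), IsSymmetricNet I 3 2 ∧
    (∃ G : Subgroup (Equiv.Perm P), (∀ σ ∈ G, IsAut I σ) ∧ TransOnPairs G (Joined I) ∧
      TransOnPairs G (fun p q => ¬ Joined I p q)) ∧
    ¬ IsClassical I :=
  ⟨_, _, Inc, ⟨isNet, isNet_dual⟩, ⟨G, fun _ h => h.1, trans_joined, trans_nonjoined⟩,
    not_classical⟩

end Pool.Agent.Results.MP_36fbc5_co.NonClassicalNet
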